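import Mathlib
import Pool.Prelude.Def_F_c31e40fa
import Pool.Agent.U256.GD4
import Pool.Agent.U256.RR.Gauge
import Pool.Agent.U256.RR.H3

set_option autoImplicit false

/-!
# The Multibrot set near a parameter with small derivatives along the critical orbit

For every parameter `c` of the Multibrot set `M_d`, the largest derivative of the iterates `f_c^k`,
`k < N`, along the critical orbit bounds Green's function and the harmonic measure of `M_d` near `c`
and, if `M_d` is locally connected, the modulus of continuity of the Caratheodory loop at `c` from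
below. The bounds are universal. In the degrees `d ≥ 3` they are stated as stretched exponential bounds
at the parameters with polynomial derivative growth, in particular at the parabolic ones and at the
infinitely renormalizable ones of bounded type with a priori bounds.

At ALL REAL infinitely renormalizable parameters, of bounded or unbounded type, we prove the real a
priori bounds with an explicit constant: all the derivatives of `f_c^(p_k)` at the points
`f_c^(n p_k) (0)` are at most `4 d (1 + 8 d)`. So the derivatives grow subexponentially along the critical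
orbit, and polynomially for bounded type. It follows that the harmonic measure and Green's function
of small discs decay faster than every power of the radius (like a stretched exponential for bounded
type) and that the Caratheodory loop, if it exists, is not Hoelder continuous of any exponent there.
-/

open Filter Topology Set Metric MeasureTheory Complex N62a1eb23

namespace Pool.Agent.Results.MP_fcb70f_an.DerivativeGauge

open Pool.Agent.H713R2

/-- The map `z ↦ z ^ d + c`. -/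
def f (d : ℕ) (c : ℂ) : ℂ → ℂ := fun z => z ^ d + c

/-- The point `f_c^n (0)` of the critical orbit. -/
def P (d n : ℕ) (c : ℂ) : ℂ := (f d c)^[n] 0

/-- The angles `t ∈ (0, 2π]` of the external rays landing at distance less than `r` from `c₀`. -/
def angles (ψ : ℂ → ℂ) (c₀ : ℂ) (r : ℝ) : Set ℝ :=
  {t | t ∈ Ioc 0 (2 * Real.pi) ∧ ∃ ζ ∈ ball c₀ r,
    Tendsto (fun ρ : ℝ => ψ (ρ * exp (t * I))) (𝓝[>] 1) (𝓝 ζ)}

/-- The harmonic measure (from infinity) of the disc of radius `r`, up to the factor `2π`. -/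
noncomputable def harm (ψ : ℂ → ℂ) (c₀ : ℂ) (r : ℝ) : ℝ := (volume (angles ψ c₀ r)).toReal

/-- The maximum over a disc of Green's function of the complement of the Multibrot set: Green's
function is `log ‖w‖` at the point `ψ w`. -/
noncomputable def green (ψ : ℂ → ℂ) (c₀ : ℂ) (r : ℝ) : ℝ :=
  sSup {x | ∃ w : ℂ, 1 < ‖w‖ ∧ ‖ψ w - c₀‖ ≤ r ∧ Real.log ‖w‖ = x}

/-- `F` is a continuous extension of `ψ` to the unit circle, the Caratheodory loop. It exists if and
only if the Multibrot set is locally connected. -/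
def Loop (ψ F : ℂ → ℂ) : Prop := ContinuousOn F {w : ℂ | 1 ≤ ‖w‖} ∧ ∀ w : ℂ, 1 < ‖w‖ → F w = ψ w

/-- `Φ ≥ 1` bounds the derivatives of the iterates `f_c^k`, `k < n`, at all points `f_c^m (0)` of the
critical orbit. -/
def DerivBound (d : ℕ) (c : ℂ) (n : ℕ) (Φ : ℝ) : Prop :=
  1 ≤ Φ ∧ ∀ m k : ℕ, k < n → ‖deriv ((f d c)^[k]) (P d m c)‖ ≤ Φ

/-- The derivatives of the iterates along the critical orbit are `O(n ^ s)`. -/
def PolynomialGrowth (d : ℕ) (c : ℂ) (s : ℝ) : Prop :=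
  ∃ C : ℝ, ∀ m n : ℕ, ‖deriv ((f d c)^[n]) (P d m c)‖ ≤ C * ((n : ℝ) + 1) ^ s

/-- `c` is parabolic: some points `f_c^(N k) (0)`, `k → ∞`, of the critical orbit converge to a
periodic point with multiplier one. -/
def Parabolic (d : ℕ) (c : ℂ) : Prop :=
  ∃ (N : ℕ) (z₀ : ℂ), 1 ≤ N ∧ (f d c)^[N] z₀ = z₀ ∧ deriv ((f d c)^[N]) z₀ = 1 ∧
    Tendsto (fun k => P d (N * k) c) atTop (𝓝 z₀)

/-- Bounded type and a priori bounds: there are periods `p 0 = 1`, `p 1`, `p 2`, … with bounded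
ratios `p (k + 1) / p k ∈ {2, 3, …}` such that for every `k` the points `f_c^(n p_k) (0)`, `n ≥ 0`,
have a common distance `r` from the complement of a set `U` whose image under `f_c^(p_k)` has a
diameter at most `C r`, where `C` does not depend on `k`. The infinitely renormalizable maps of
bounded type with a priori bounds have this property. -/
def BoundedType (d : ℕ) (c : ℂ) : Prop :=
  ∃ (p : ℕ → ℕ) (B : ℕ) (C : ℝ), p 0 = 1 ∧ ∀ k : ℕ, p k ∣ p (k + 1) ∧ p k < p (k + 1) ∧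
    p (k + 1) ≤ B * p k ∧ ∃ (U : Set ℂ) (r : ℝ), 0 < r ∧ (∀ n : ℕ, ball (P d (n * p k) c) r ⊆ U) ∧
      ∀ z ∈ U, ∀ z' ∈ U, dist ((f d c)^[p k] z) ((f d c)^[p k] z') ≤ C * r

/-- The map `x ↦ x ^ d + c` of the real line. -/
def fR (d : ℕ) (c : ℝ) : ℝ → ℝ := fun x => x ^ d + c

/-- The real map `f_c` is infinitely renormalizable with the periods `p 0`, `p 1`, …: each is a proper
divisor of the next one, and there are numbers `β 0 > β 1 > … > 0` such that for every `k` the map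
`f_c^(p k)` maps the interval `[-β k, β k]` into itself, and any two of the `p k` intervals
`f_c^i [-β k, β k]`, `i < p k`, have at most one point in common. (There are such parameters in the
even degrees `d` only.) -/
def RealPeriods (d : ℕ) (c : ℝ) (p : ℕ → ℕ) : Prop :=
  ∃ β : ℕ → ℝ, ∀ k : ℕ, 0 < p k ∧ p k ∣ p (k + 1) ∧ p k < p (k + 1) ∧
    0 < β k ∧ β (k + 1) < β k ∧
    MapsTo ((fR d c)^[p k]) (Icc (-β k) (β k)) (Icc (-β k) (β k)) ∧
    ∀ i j : ℕ, i < j → j < p k →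
      (((fR d c)^[i] '' Icc (-β k) (β k)) ∩ ((fR d c)^[j] '' Icc (-β k) (β k))).Subsingleton

theorem growth_iff {d : ℕ} {c : ℂ} {m N : ℕ} :
    ‖deriv ((f d c)^[N]) (P d m c)‖ = Pool.Agent.U256.GD.DD d c m (m + N) :=
  Pool.Agent.U256.GD.norm_deriv_iter d c m N

theorem bd_of {d : ℕ} {c : ℂ} {n : ℕ} {Φ : ℝ} (h : DerivBound d c n Φ) :
    Pool.Agent.U256.GD.Bd d c n Φ := by
  refine ⟨h.1, fun m k hk => ?_⟩
  rw [← growth_iff]
  exact h.2 m k hk

theorem growth_of_parabolic {d : ℕ} (hd : 2 ≤ d) {c : ℂ} (hc : c ∈ multibrotSet d)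
    (h : Parabolic d c) : PolynomialGrowth d c 0 := by
  obtain ⟨N, z₀, hN, h1, h2, h3⟩ := h
  obtain ⟨C, hC⟩ := Pool.Agent.U256.GD.parabolic_DD hd hc hN h1 h2 h3
  refine ⟨C, fun m n => ?_⟩
  rw [growth_iff, Real.rpow_zero, mul_one]
  exact hC m (m + n) (by omega)

theorem growth_of_boundedType {d : ℕ} {c : ℂ} (h : BoundedType d c) :
    ∃ s : ℝ, 0 ≤ s ∧ PolynomialGrowth d c s := by
  obtain ⟨p, B, C, h0, h⟩ := h
  have hch : Pool.Agent.U256.GD.Chain d c p B (max C 1) := by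
    refine ⟨h0, fun k => (h k).1, fun k => (h k).2.1, fun k => (h k).2.2.1, le_max_right _ _, ?_⟩
    intro k i
    obtain ⟨U, r, hr, hball, hdiam⟩ := (h k).2.2.2
    rw [← Pool.Agent.U256.GD.norm_deriv_iter]
    exact (Pool.Agent.Y736.RN.deriv_le' (c := c) (p := p k) (U := U) (C := C) hr hball
      (fun z hz z' hz' => by
        have h2 := hdiam z hz z' hz'
        rw [dist_eq_norm] at h2
        exact h2) i).trans (le_max_left _ _)
  obtain ⟨s, hs, h1⟩ := hch.poly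
  refine ⟨s, hs, (max C 1) ^ B, fun m n => ?_⟩
  rw [growth_iff]
  have h2 := h1 m (m + n) (by omega)
  rwa [Nat.add_sub_cancel_left] at h2

/-- **Green's function, harmonic measure and the loop against the derivatives.** -/
theorem result (d : ℕ) (hd : 2 ≤ d) :
    (∃ ψ : ℂ → ℂ, IsExteriorMap (multibrotSet d) ψ) ∧
    -- (1) universal bounds, with a constant that depends on the degree only
    (∃ K : ℝ, 0 < K ∧ ∀ c ∈ multibrotSet d, ∀ N : ℕ, 1 ≤ N → ∀ Φ : ℝ, DerivBound d c N Φ →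
      ∀ r : ℝ, 0 < r → K * (N * Φ) ^ 2 * r ≤ 1 →
      ∀ ψ : ℂ → ℂ, IsExteriorMap (multibrotSet d) ψ →
        harm ψ c r ≤ K / (d : ℝ) ^ N ∧ green ψ c r ≤ K / (d : ℝ) ^ N ∧
        (K / (d : ℝ) ^ N ≤ 1 → ∀ F : ℂ → ℂ, Loop ψ F → ∀ ζ : ℂ, ‖ζ‖ = 1 → F ζ = c →
          ∃ ξ : ℂ, ‖ξ‖ = 1 ∧ ‖ξ - ζ‖ ≤ K / (d : ℝ) ^ N ∧ r ≤ ‖F ξ - F ζ‖)) ∧
    -- (2) polynomial growth of the derivatives, in the degrees `d ≥ 3`
    (3 ≤ d → (∀ c ∈ multibrotSet d, ∀ s : ℝ, 0 ≤ s → PolynomialGrowth d c s → ∃ A : ℝ, 0 < A ∧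
      ∀ ψ : ℂ → ℂ, IsExteriorMap (multibrotSet d) ψ →
        (∀ᶠ r : ℝ in 𝓝[>] 0, harm ψ c r < Real.exp (-(A * r ^ (-(1 / (2 * s + 2))))) ∧
          green ψ c r < Real.exp (-(A * r ^ (-(1 / (2 * s + 2)))))) ∧
        ∀ F : ℂ → ℂ, Loop ψ F → ∀ ζ : ℂ, ‖ζ‖ = 1 → F ζ = c → ∀ᶠ δ : ℝ in 𝓝[>] 0,
          ∃ ξ : ℂ, ‖ξ‖ = 1 ∧ ‖ξ - ζ‖ ≤ δ ∧
            (A / Real.log (1 / δ)) ^ (2 * s + 2) ≤ ‖F ξ - F ζ‖) ∧
    -- (3) parameters with polynomial growth
      (∀ c ∈ multibrotSet d, Parabolic d c → PolynomialGrowth d c 0) ∧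
      (∀ c ∈ multibrotSet d, BoundedType d c → ∃ s : ℝ, 0 ≤ s ∧ PolynomialGrowth d c s) ∧
    -- (4) all real infinitely renormalizable parameters
      ∀ (c : ℝ) (p : ℕ → ℕ), RealPeriods d c p → (c : ℂ) ∈ multibrotSet d ∧
        (∀ k n : ℕ, ‖deriv ((f d c)^[p k]) (P d (n * p k) c)‖ ≤ 4 * d * (1 + 8 * d)) ∧
        (∀ B : ℕ, (∀ k, p (k + 1) ≤ B * p k) → ∃ s : ℝ, 0 ≤ s ∧ PolynomialGrowth d c s) ∧
        (∀ a : ℝ, 0 < a → ∀ᶠ n : ℕ in atTop, DerivBound d c n (Real.exp (a * n))) ∧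
        ∀ ψ : ℂ → ℂ, IsExteriorMap (multibrotSet d) ψ →
          (∀ κ : ℝ, 0 < κ → ∀ᶠ r : ℝ in 𝓝[>] 0, harm ψ c r < r ^ κ ∧ green ψ c r < r ^ κ) ∧
          (∀ a : ℝ, 0 < a → ∀ᶠ n : ℕ in atTop, ‖deriv (P d n) (c : ℂ)‖ < Real.exp (a * n)) ∧
          ∀ F : ℂ → ℂ, Loop ψ F → ∀ ζ : ℂ, ‖ζ‖ = 1 → F ζ = c → ∀ α : ℝ, 0 < α →
            ∀ᶠ δ : ℝ in 𝓝[>] 0, ∃ ξ : ℂ, ‖ξ‖ = 1 ∧ ‖ξ - ζ‖ ≤ δ ∧ δ ^ α ≤ ‖F ξ - F ζ‖) := by
  obtain ⟨β, hβ⟩ := exists_beta (d := d) hd
  refine ⟨⟨_, exteriorMap_of_beta hβ⟩, ?_, fun _ => ⟨?_,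
    fun c hc h => growth_of_parabolic hd hc h, fun c _ h => growth_of_boundedType h, ?_⟩⟩
  · -- (1)
    have hpi := Real.pi_pos
    have hlog2 : 0 < Real.log 2 := Real.log_pos (by norm_num)
    have hd0 : (0 : ℝ) < d := by exact_mod_cast (by omega : 0 < d)
    obtain ⟨X, hX⟩ : ∃ X : ℝ, X = 2 * Real.pi * (3 * d) / Real.log 2 := ⟨_, rfl⟩
    have hX0 : 0 < X := by rw [hX]; positivity
    obtain ⟨K, hK⟩ : ∃ K : ℝ, K = 8 * 3 ^ d + 3 * d + X + 1 := ⟨_, rfl⟩
    have h3 : (0 : ℝ) < 8 * 3 ^ d := by positivity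
    have hK0 : 0 < K := by rw [hK]; positivity
    refine ⟨K, hK0, ?_⟩
    intro c hc N hN Φ hΦ r hr hrs ψ hψ
    have hdN : (0 : ℝ) < (d : ℝ) ^ N := by positivity
    have hrs' : 8 * 3 ^ d * r * (N * Φ) ^ 2 ≤ 1 := by
      have hK1 : 8 * 3 ^ d ≤ K := by rw [hK]; linarith
      calc 8 * 3 ^ d * r * (N * Φ) ^ 2 = (8 * 3 ^ d) * (N * Φ) ^ 2 * r := by ring
        _ ≤ K * (N * Φ) ^ 2 * r := by gcongr
        _ ≤ 1 := hrs
    have hvol : harm ψ c r ≤ X / (d : ℝ) ^ N := by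
      have h := Pool.Agent.U256.GD.vol_phi hd hc hN (bd_of hΦ) hψ hr hrs'
      refine h.trans (le_of_eq ?_)
      rw [hX]
      ring
    have hXK : X / (d : ℝ) ^ N < K / (d : ℝ) ^ N := by
      apply div_lt_div_of_pos_right _ hdN
      rw [hK]
      linarith
    refine ⟨(hvol.trans_lt hXK).le, ?_, ?_⟩
    · apply Real.sSup_le _ (by positivity)
      rintro x ⟨w, hw1, hw2, rfl⟩
      have h := Pool.Agent.U256.GD.log_le_green hd hc hN (bd_of hΦ) hψ hw1 hw2 (by
        have : 0 ≤ 4 * 3 ^ d * r * (N * Φ) ^ 2 := by positivity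
        linarith)
      refine h.trans ?_
      gcongr
      rw [hK]
      linarith
    · intro h1 F hF ζ hζ hFζ
      exact Pool.Agent.U256.GD.loop_unif (by positivity) (h1.trans (by linarith [Real.pi_gt_three]))
        (hvol.trans_lt hXK) hF.1 hF.2 hζ hFζ
  · -- (2)
    intro c hc s hs h
    obtain ⟨C, hC⟩ := h
    have hD : ∀ m n, m ≤ n → Pool.Agent.U256.GD.DD d c m n ≤
        max C 1 * (((n - m : ℕ) : ℝ) + 1) ^ s := by
      intro m n hmn
      have h1 := hC m (n - m)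
      rw [growth_iff, Nat.add_sub_cancel' hmn] at h1
      refine h1.trans ?_
      apply mul_le_mul_of_nonneg_right (le_max_left _ _) (by positivity)
    obtain ⟨A, hA, h2⟩ := Pool.Agent.U256.GD.harm_green hd hc (le_max_right C 1) hs hD
    refine ⟨A, hA, fun ψ hψ => ⟨h2 ψ hψ, ?_⟩⟩
    intro F hF ζ hζ hFζ
    have h3 := Pool.Agent.U256.SE.loop_log (ψ := ψ) (c₀ := c) (β := 1 / (2 * s + 2)) hA
      (by positivity) ((h2 ψ hψ).mono fun r hr => hr.1) hF.1 hF.2 hζ hFζ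
    rw [one_div_one_div] at h3
    exact h3
  · -- (4)
    rintro c p ⟨b, h⟩
    have hT : Pool.Agent.U256.RR.Tower d c p b := h
    refine ⟨hT.mem, fun k n => hT.complex_bounds hd k n, fun B hB => ?_, fun a ha => ?_, fun ψ hψ => ⟨fun κ hκ => hT.flat hd hψ hκ,
      fun a ha => hT.param_deriv hd hψ ha, ?_⟩⟩
    · obtain ⟨s, hs, C, hC⟩ := hT.poly' hd hB
      exact ⟨s, hs, C, hC⟩
    · filter_upwards [hT.deriv_bound hd ha] with n hn
      refine ⟨Real.one_le_exp (by positivity), fun m k hk => ?_⟩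
      have h1 : P d m (c : ℂ) = (((Pool.Agent.U256.RR.g d c)^[m] 0 : ℝ) : ℂ) := by
        have := Pool.Agent.U256.RR.iter_ofReal d c m 0
        rwa [ofReal_zero] at this
      rw [h1]
      exact (Pool.Agent.U256.RR.norm_deriv d c k _).trans_le (hn m k hk)
    · intro F hF ζ hζ hFζ α hα
      exact Pool.Agent.U256.RR.loop_osc (ψ := ψ) (c₀ := c) (κ := 2 / α) hα
        (by rw [mul_div_cancel₀ _ hα.ne']; norm_num)
        ((hT.flat hd hψ (by positivity)).mono fun r hr => hr.1) hF.1 hF.2 hζ hFζ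

end Pool.Agent.Results.MP_fcb70f_an.DerivativeGauge
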