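import Mathlib
import Pool.Prelude.Def_F_c31e40fa
import Pool.Agent.U608.ML.L7
import Pool.Agent.U608.ML.L8

/-!
# The Laurent coefficients of the Multibrot sets near the powers of the degree

Let `d ≥ 3`, let `ψ` be the conformal map from the exterior of the unit disc onto the complement of
the Multibrot set `M_d`, and `ψ z = z + ∑ b_m z ^ (-m)`. Absolute convergence of the series on the
unit circle would imply that `M_d` is locally connected. The discrete Hilbert transform of the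
sequence `m² |b_m|²` at the powers of `d` is given by the dynamics inside of `M_d`:

`∑_{l ≠ d^n} l² |b_l|² / (d^n - l) = (1 / π) ∫_{M_d} |f_c^n (c)|² dA(c) + o(1)`,   `f_c (z) = z^d + c`,

and the right-hand side differs from `1 / 2` by at most `30 log d / (d - 1)`, for all `n`.
-/

set_option autoImplicit false

open Filter Topology MeasureTheory Polynomial N62a1eb23

namespace Pool.Agent.Results.MP_fcb70f_an.HilbertTransformLaw

open Pool.Agent.H713R2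

/-- The unicritical polynomial `z ^ d + c`. -/
def f (d : ℕ) (c : ℂ) : ℂ → ℂ := fun z => z ^ d + c

/-- The mean square over the Multibrot set of degree `d`, with the weight `‖g‖ ^ 2`, of the `n`-th
point of the orbit of the critical value `c` under `z ^ d + c`. -/
noncomputable def meanSquare (d : ℕ) (g : ℂ[X]) (n : ℕ) : ℝ :=
  1 / Real.pi * ∫ c in multibrotSet d, ‖g.eval c‖ ^ 2 * ‖(f d c)^[n] c‖ ^ 2

theorem P_eq {d : ℕ} (hd : 2 ≤ d) (n : ℕ) (c : ℂ) : Pool.Agent.H712R2.P d (n + 1) c = (f d c)^[n] c :=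
  (Pool.Agent.H712R2.iter_c hd n c).symm

theorem rr_eq' {d : ℕ} (hd : 2 ≤ d) : Pool.Agent.H712R2.rr d =
    ((d : ℝ) - 1) / (d : ℝ) ^ ((d : ℝ) / (d - 1)) := by
  have hdr : (2 : ℝ) ≤ d := by exact_mod_cast hd
  have hd0 : (0 : ℝ) < d := by linarith
  have hd1 : (d : ℝ) - 1 ≠ 0 := by linarith
  have h1 : (d : ℝ) ^ ((d : ℝ) / (d - 1)) = d * Real.exp (Real.log d / (d - 1)) := by
    have h2 : (d : ℝ) / (d - 1) = 1 + 1 / (d - 1) := by field_simp; ring
    rw [h2, Real.rpow_add hd0, Real.rpow_one, Real.rpow_def_of_pos hd0, mul_one_div]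
  rw [Pool.Agent.H712R2.rr_eq hd, h1]
  unfold Pool.Agent.H712R2.sr
  rw [Real.exp_neg]
  field_simp

/-- **The Hilbert transform of `l ^ 2 * ‖b l‖ ^ 2` at the powers of `d`.** (The term `l = d ^ n` of the
series has denominator zero and is zero by Lean's convention `x / 0 = 0`.) -/
theorem result (d : ℕ) (hd : 3 ≤ d) :
    (∃ (ψ : ℂ → ℂ) (b : ℕ → ℂ), IsExteriorMap (multibrotSet d) ψ ∧ HasLaurent ψ b) ∧
    (∀ n : ℕ, |meanSquare d 1 n - 1 / 2| ≤ 30 * Real.log d / (d - 1) ∧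
      (((d : ℝ) - 1) / (d : ℝ) ^ ((d : ℝ) / (d - 1))) ^ 4 / 2 ≤ meanSquare d 1 n) ∧
    ∀ ψ : ℂ → ℂ, IsExteriorMap (multibrotSet d) ψ →
      (∀ (G H : ℂ[X]) (γ : ℕ → ℂ),
        (∀ z : ℂ, 1 < ‖z‖ → HasSum (fun m : ℕ => γ m / z ^ m) (G.eval (ψ z) - H.eval z)) →
        (∀ n : ℕ, Summable fun l : ℕ => (l : ℝ) ^ 2 * ‖γ l‖ ^ 2 / ((d : ℝ) ^ n - l)) ∧
        Tendsto (fun n : ℕ => ∑' l : ℕ, (l : ℝ) ^ 2 * ‖γ l‖ ^ 2 / ((d : ℝ) ^ n - l) -
          meanSquare d (derivative G) n) atTop (𝓝 0)) ∧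
      ∀ b : ℕ → ℂ, HasLaurent ψ b →
        (∀ n : ℕ, 1 ≤ n → meanSquare d 1 n ≤ 1 / ((d : ℝ) ^ n + 1) +
            ∑ l ∈ Finset.range (d ^ (n + 1) - 2), (l : ℝ) ^ 2 * ‖b l‖ ^ 2 / ((d : ℝ) ^ n - l)) ∧
        (∀ B : ℝ, ∃ (K : ℕ) (c : ℝ), 0 < c ∧ ∀ᶠ n : ℕ in atTop,
          ∑ l ∈ Finset.range (d ^ n), (l : ℝ) ^ 2 * ‖b l‖ ^ 2 / ((d : ℝ) ^ n - l) ≤ B →
          ∃ l : ℕ, d ^ n ≤ l + K ∧ l < d ^ n ∧ c ≤ l * ‖b l‖) ∧
        (Tendsto (fun l : ℕ => (l : ℝ) * ‖b l‖) atTop (𝓝 0) →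
          Tendsto (fun n : ℕ => ∑ l ∈ Finset.range (d ^ n),
            (l : ℝ) ^ 2 * ‖b l‖ ^ 2 / ((d : ℝ) ^ n - l)) atTop atTop) := by
  have hd2 : 2 ≤ d := by omega
  obtain ⟨β, hβ⟩ := exists_beta (d := d) hd2
  have hms : ∀ n, meanSquare d 1 n = 1 / Real.pi *
      ∫ c in multibrotSet d, ‖Pool.Agent.H712R2.P d (n + 1) c‖ ^ 2 := by
    intro n
    unfold meanSquare
    simp only [P_eq hd2, eval_one, norm_one, one_pow, one_mul]
  refine ⟨⟨_, _, exteriorMap_of_beta hβ, laurent_of_beta hβ⟩, ?_, ?_⟩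
  · intro n
    rw [hms, ← rr_eq' hd2]
    exact ⟨Pool.Agent.U608.ML.mean_asym hd n, Pool.Agent.U608.ML.mean_lower_gen hd2 n⟩
  intro ψ hψ
  refine ⟨?_, ?_⟩
  · intro G H γ h
    have h1 := Pool.Agent.U608.ML.law hd2 hψ h
    simp only [P_eq hd2] at h1
    exact h1
  · intro b hb
    have hdich := Pool.Agent.U608.ML.dichotomy hd2 hψ hb
    refine ⟨fun n hn => ?_, hdich, ?_⟩
    · rw [hms]
      exact Pool.Agent.U608.ML.ineq hd2 hψ hb hn
    · intro ht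
      rw [tendsto_atTop]
      intro B
      obtain ⟨K, c, hc, h1⟩ := hdich B
      obtain ⟨M, hM⟩ := eventually_atTop.1 (ht.eventually (gt_mem_nhds hc))
      have h2 : ∀ᶠ n : ℕ in atTop, M + K ≤ d ^ n :=
        (tendsto_pow_atTop_atTop_of_one_lt (by omega : 1 < d)).eventually_ge_atTop _
      filter_upwards [h1, h2] with n h3 h4
      by_contra h5
      push Not at h5
      obtain ⟨l, h6, h7, h8⟩ := h3 h5.le
      have h9 := hM l (by omega)
      linarith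

end Pool.Agent.Results.MP_fcb70f_an.HilbertTransformLaw
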