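import Pool.Prelude.Def_F_c31e40fa
import Pool.Agent.Y736.HG7
import Pool.Agent.Y736.HG9
import Pool.Agent.R240.Growth

/-!
# MP_fcb70f_an: the Multibrot set at the parameters with a positive Lyapunov exponent

`d ≥ 2`, `M_d` is the Multibrot set of degree `d` and `ψ` the conformal map from the exterior of the
unit disc onto the complement of `M_d` (`IsExteriorMap`).  `M_d` is locally connected if and only if `ψ`
extends continuously to the closed exterior of the disc.

Let `c₀ ∈ M_d` be any parameter at which the Lyapunov exponent of the critical value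
`χ = lim (1/n) log |(f_{c₀}^n)'(c₀)|` exists and is positive.  Then:

1. the harmonic measure of `M_d` has a local dimension at `c₀`, and it is `log d / χ`: the set
   of the angles of the parameter rays landing at distance `< r` from `c₀` has the measure
   `r ^ (log d / χ + o(1))`;
2. the supremum of Green's function of `M_d` on the disc of radius `r` is `r ^ (log d / χ + o(1))`;
3. the number of the parameters at distance less than `exp (- β n)` from `c₀` whose critical point is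
   periodic of period dividing `n` is `exp ((1 - β / χ + o(1)) n log d)` for `0 < β < χ`;
4. if `ψ` extends continuously, that is, if `M_d` is locally connected, then the extension cannot be
   Hölder continuous at a preimage of `c₀` with an exponent larger than `χ / log d`.

The parameters with an upper exponent at least `χ` form a set of Hausdorff dimension at most
`log d / χ` (5.).

The theorem is assembled from theorems of the starting library (`Pool.Agent.Y736.HG7`,
`Pool.Agent.Y736.HG9`, `Pool.Agent.R240.Growth`), which were not handed in.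
-/

set_option autoImplicit false

namespace Pool.Agent.Results.MP_fcb70f_an.LyapunovParameters

open Complex Metric Set Filter Topology MeasureTheory
open N62a1eb23

/-- **The Multibrot set at the parameters with a positive Lyapunov exponent.** -/
theorem result {d : ℕ} (hd : 2 ≤ d) :
    (∀ (χ : ℝ) (c₀ : ℂ), 0 < χ → c₀ ∈ multibrotSet d →
      Tendsto (fun n : ℕ => Real.log ‖deriv (fun z : ℂ => z ^ d + c₀)^[n] c₀‖ / n) atTop (𝓝 χ) →
      (∀ ψ : ℂ → ℂ, Pool.Agent.H713R2.IsExteriorMap (multibrotSet d) ψ →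
        Tendsto (fun r => Real.log (volume {θ : ℝ | θ ∈ Ioc 0 (2 * Real.pi) ∧
          ∃ ζ ∈ ball c₀ r, Tendsto (fun ρ : ℝ => ψ (ρ * exp (θ * I))) (𝓝[>] 1) (𝓝 ζ)}).toReal /
            Real.log r) (𝓝[>] 0) (𝓝 (Real.log d / χ)) ∧
        Tendsto (fun r => Real.log (sSup {x : ℝ | ∃ w : ℂ, 1 < ‖w‖ ∧ ‖ψ w - c₀‖ ≤ r ∧
          Real.log ‖w‖ = x}) / Real.log r) (𝓝[>] 0) (𝓝 (Real.log d / χ)) ∧
        (∀ F : ℂ → ℂ, ContinuousOn F {w | 1 ≤ ‖w‖} → (∀ w, 1 < ‖w‖ → F w = ψ w) →
          ∀ ζ : ℂ, ‖ζ‖ = 1 → F ζ = c₀ → ∀ ε : ℝ, 0 < ε → ∀ᶠ δ : ℝ in 𝓝[>] 0,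
            ∃ ξ : ℂ, ‖ξ‖ = 1 ∧ ‖ξ - ζ‖ ≤ δ ∧ δ ^ (χ / Real.log d + ε) ≤ ‖F ξ - F ζ‖)) ∧
      (∀ β : ℝ, 0 < β → β < χ → Tendsto (fun n : ℕ =>
        Real.log {c : ℂ | ‖c - c₀‖ < Real.exp (-(β * n)) ∧
          (fun z : ℂ => z ^ d + c)^[n] 0 = 0}.ncard / n) atTop
            (𝓝 ((1 - β / χ) * Real.log d)))) ∧
    (∀ χ : ℝ, 0 < χ → dimH {c₀ : ℂ | c₀ ∈ multibrotSet d ∧ ∀ a : ℝ, a < χ →
      ∃ᶠ n : ℕ in atTop, Real.exp (a * n) ≤ ‖deriv (fun c : ℂ => (fun z : ℂ => z ^ d + c)^[n] 0) c₀‖} ≤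
        ENNReal.ofReal (Real.log d / χ)) := by
  refine ⟨fun χ c₀ h1 h2 h3 => ?_, fun χ hχ => ?_⟩
  · have h : Pool.Agent.Y298.CA.Lyap d χ c₀ := ⟨h1, h2, h3⟩
    refine ⟨fun ψ hψ => ⟨?_, ?_, ?_⟩, fun β hβ0 hβ => ?_⟩
    · exact Pool.Agent.Y736.HG.vol_exp hd h hψ
    · exact Pool.Agent.Y736.HG.sup_exp hd h hψ
    · intro F hF hE ζ hζ hFζ ε hε
      exact Pool.Agent.Y736.HG.loop hd h hψ hF hE hζ hFζ hε
    · have h4 := Pool.Agent.R240.growth hd h hβ0 hβ
      simp only [Pool.Agent.R240.Cen, mem_ball, dist_eq_norm] at h4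
      exact h4
  · exact Pool.Agent.Y736.HG.dim_Big hd hχ

end Pool.Agent.Results.MP_fcb70f_an.LyapunovParameters
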