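import Mathlib
import Pool.Prelude.Def_F_c31e40fa
import Pool.Agent.U552.FineLem

set_option autoImplicit false

/-!
# Impressions of the external rays of the Multibrot sets

`M_d` is locally connected if and only if all impressions of its external rays are points. Here all
these impressions are shown to be small: they have diameter about `(log d) / d`, and the impression of
the ray of angle `θ` is within `(log d + 8) / (d - 1)` of `e ^ (i θ)`; the order `(log d) / d` (with the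
constant one) cannot be improved.
-/

open Filter Topology Set Metric Complex N62a1eb23

namespace Pool.Agent.Results.MP_fcb70f_an.RayImpressions

open Pool.Agent.H713R2

/-- The impression of the unit vector `ζ`: all limits of `ψ w` as `w → ζ`, `‖w‖ > 1`. -/
def Impression (ψ : ℂ → ℂ) (ζ : ℂ) : Set ℂ := {c | MapClusterPt c (𝓝[{z : ℂ | 1 < ‖z‖}] ζ) ψ}

theorem result (d : ℕ) (hd : 2 ≤ d) :
    (∃ ψ : ℂ → ℂ, IsExteriorMap (multibrotSet d) ψ) ∧
    ∀ ψ : ℂ → ℂ, IsExteriorMap (multibrotSet d) ψ →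
      -- (1) the impressions cover the boundary
      (∀ c : ℂ, c ∈ frontier (multibrotSet d) ↔ ∃ ζ : ℂ, ‖ζ‖ = 1 ∧ c ∈ Impression ψ ζ) ∧
      -- (2) each impression is small and close to its unit vector
      (∀ ζ : ℂ, ‖ζ‖ = 1 → ∀ c ∈ Impression ψ ζ, ‖c - ζ‖ ≤ (Real.log d + 8) / (d - 1) ∧
        (∃ a : ℂ, c = ζ * exp a ∧ -(Real.log (4 * d) / (d - 1)) ≤ a.re ∧
          a.re ≤ Real.log 2 / (d - 1) ∧ |a.im| ≤ Real.pi / (d - 1)) ∧
        ∀ c' ∈ Impression ψ ζ, ‖c - c'‖ ≤ 2 ^ (1 / ((d : ℝ) - 1)) *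
          (√(Real.log (8 * d) ^ 2 + 4 * Real.pi ^ 2) / (d - 1))) ∧
      -- (3) the exterior map is uniformly close to the identity
      (∀ w : ℂ, 1 < ‖w‖ → ‖ψ w - w‖ ≤ (Real.log d + 8) / (d - 1) * ‖w‖ ∧
        |arg (ψ w / w)| < Real.pi / (d - 1)) ∧
      -- (4) the order of magnitude in (2) and (3) is sharp
      (∃ ζ c : ℂ, ‖ζ‖ = 1 ∧ c ∈ Impression ψ ζ ∧
        1 - (1 - 1 / (d : ℝ)) * (d : ℝ) ^ (-(1 / ((d : ℝ) - 1))) ≤ ‖c - ζ‖) ∧
      (∀ η : ℝ, η < 1 - (1 - 1 / (d : ℝ)) * (d : ℝ) ^ (-(1 / ((d : ℝ) - 1))) →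
        ∃ w : ℂ, 1 < ‖w‖ ∧ η * ‖w‖ < ‖ψ w - w‖) ∧
      Real.log d / (d - 1) - (Real.log d / (d - 1)) ^ 2 / 2 ≤
        1 - (1 - 1 / (d : ℝ)) * (d : ℝ) ^ (-(1 / ((d : ℝ) - 1))) := by
  obtain ⟨β, hβ⟩ := exists_beta (d := d) hd
  have hdr : (2 : ℝ) ≤ d := by exact_mod_cast hd
  have hd1 : (1 : ℝ) ≤ (d : ℝ) - 1 := by linarith
  refine ⟨⟨_, exteriorMap_of_beta hβ⟩, fun ψ hψ => ⟨fun c => ⟨fun hc => ?_, ?_⟩, ?_, ?_, ?_, ?_, ?_⟩⟩
  · exact U552.Fine.exists_imp hd hψ hc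
  · rintro ⟨ζ, hζ, hc⟩
    exact U552.Fine.imp_frontier hd hψ hζ hc
  · intro ζ hζ c hc
    exact ⟨U552.Fine.imp_near hd hψ hζ hc, U552.Fine.imp_log hd hψ hc,
      fun c' hc' => U552.Fine.imp_dist hd hψ hζ hc hc'⟩
  · intro w hw
    refine ⟨R240.Ext.near_id hd hψ hw, ?_⟩
    obtain ⟨A, hA⟩ := U552.Fine.rect hd hψ
    obtain ⟨h1, -, -, h2⟩ := hA w hw
    have hw0 : w ≠ 0 := by
      rintro rfl
      rw [norm_zero] at hw
      linarith
    rw [h1, mul_div_cancel_left₀ _ hw0, ← Complex.log_im, Complex.log_exp]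
    · exact h2
    · have h3 : Real.pi / ((d : ℝ) - 1) ≤ Real.pi := div_le_self Real.pi_pos.le hd1
      have := (abs_lt.1 h2).1
      linarith
    · have h3 : Real.pi / ((d : ℝ) - 1) ≤ Real.pi := div_le_self Real.pi_pos.le hd1
      have := (abs_lt.1 h2).2
      linarith
  · obtain ⟨ζ, hζ, hc⟩ := U552.Fine.exists_imp hd hψ (U552.Fine.c0_frontier hd)
    refine ⟨ζ, _, hζ, hc, ?_⟩
    have h1 := norm_sub_norm_le ζ ((U552.Fine.c0 d : ℝ) : ℂ)
    rw [hζ, Complex.norm_real, Real.norm_eq_abs, abs_of_nonneg (U552.Fine.c0_nonneg hd),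
      norm_sub_rev] at h1
    exact h1
  · intro η hη
    exact U552.Fine.sharp hd hψ hη
  · exact U552.Fine.c0_bound hd

end Pool.Agent.Results.MP_fcb70f_an.RayImpressions
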